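import Mathlib

set_option autoImplicit false

open Set Topology Filter

namespace Pool.Agent.Results.MP_49f1ce_an.SpacingShift

section defs

variable {A : Type} [TopologicalSpace A]

/-- The left shift on bi-infinite sequences. -/
def shift (x : ℤ → A) : ℤ → A := fun i => x (i + 1)

/-- Shift spaces: nonempty closed shift-invariant sets of sequences. -/
structure IsShiftSpace (X : Set (ℤ → A)) : Prop where
  nonempty : X.Nonempty
  closed : IsClosed X
  invariant : ∀ x, shift x ∈ X ↔ x ∈ X

/-- Topological transitivity of the shift on `X`. -/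
def Transitive (X : Set (ℤ → A)) : Prop :=
  ∀ U V : Set (ℤ → A), IsOpen U → IsOpen V → (U ∩ X).Nonempty → (V ∩ X).Nonempty →
    ∃ n : ℕ, 1 ≤ n ∧ ∃ x ∈ U ∩ X, shift^[n] x ∈ V

/-- The periodic points of `X`. -/
def periodicPts (X : Set (ℤ → A)) : Set (ℤ → A) := {x | x ∈ X ∧ ∃ n : ℕ, 1 ≤ n ∧ shift^[n] x = x}

variable {X : Set (ℤ → A)} (hX : IsShiftSpace X)

/-- The shift restricted to `X`. -/
def sX (x : X) : X := ⟨shift x.1, (hX.invariant x.1).mpr x.2⟩

/-- The suspension space of the roof function `r`: the quotient of `X × ℝ` by the equivalence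
relation generated by `(x, s) ∼ (σ x, s - r x)`. -/
def Susp (r : X → ℝ) : Type := Quot (fun p q : X × ℝ => q = (sX hX p.1, p.2 - r p.1))

/-- The quotient topology of the suspension space. -/
instance (r : X → ℝ) : TopologicalSpace (Susp hX r) :=
  inferInstanceAs (TopologicalSpace (Quot (fun p q : X × ℝ => q = (sX hX p.1, p.2 - r p.1))))

/-- The suspension flow `φ_t [(x, s)] = [(x, s + t)]`. -/
def flow (r : X → ℝ) (t : ℝ) : Susp hX r → Susp hX r :=
  Quot.map (fun p => (p.1, p.2 + t)) (by
    rintro p q rfl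
    simp only [Prod.mk.injEq, true_and]
    ring)

/-- Topological mixing of the suspension flow. -/
def FlowMixing (r : X → ℝ) : Prop :=
  ∀ U V : Set (Susp hX r), IsOpen U → IsOpen V → U.Nonempty → V.Nonempty →
    ∃ T : ℝ, ∀ t : ℝ, T ≤ t → (flow hX r t '' U ∩ V).Nonempty

/-- `f` and `g` differ by a continuous coboundary. -/
def Cohomologous (f g : X → ℝ) : Prop :=
  ∃ h : X → ℝ, Continuous h ∧ ∀ x, f x - g x = h (sX hX x) - h x

/-- `g x` depends only on the coordinates in some window `[-N, N]`. -/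
def LocConst (g : X → ℝ) : Prop :=
  ∃ N : ℕ, ∀ x y : X, (∀ i : ℤ, |i| ≤ N → x.1 i = y.1 i) → g x = g y

end defs

/-- The admissible distances between two symbols `true`. -/
def D (n : ℕ) : Prop := Even (Nat.log 4 n)

/-- The spacing shift. -/
def X : Set (ℤ → Bool) :=
  {x | ∀ a b : ℤ, a < b → x a = true → x b = true → D (b - a).toNat}

lemma D_of_mem {j n : ℕ} (h1 : 4 ^ (2 * j) ≤ n) (h2 : n < 4 ^ (2 * j + 1)) : D n := by
  have : Nat.log 4 n = 2 * j := by
    rw [Nat.log_eq_iff (Or.inr ⟨by norm_num, by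
      have : 0 < 4 ^ (2 * j) := by positivity
      omega⟩)]
    exact ⟨h1, h2⟩
  unfold D
  rw [this]
  exact even_two_mul j

lemma not_D_of_mem {j n : ℕ} (h1 : 4 ^ (2 * j + 1) ≤ n) (h2 : n < 4 ^ (2 * j + 2)) : ¬ D n := by
  have : Nat.log 4 n = 2 * j + 1 := by
    rw [Nat.log_eq_iff (Or.inr ⟨by norm_num, by
      have : 0 < 4 ^ (2 * j + 1) := by positivity
      omega⟩)]
    exact ⟨h1, h2⟩
  unfold D
  rw [this]
  exact Nat.not_even_bit1 j

lemma shift_mem (x : ℤ → Bool) : shift x ∈ X ↔ x ∈ X := by
  constructor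
  · intro h a b hab ha hb
    have := h (a - 1) (b - 1) (by omega) (by simpa [shift] using ha) (by simpa [shift] using hb)
    have e : b - 1 - (a - 1) = b - a := by ring
    rwa [e] at this
  · intro h a b hab ha hb
    have := h (a + 1) (b + 1) (by omega) ha hb
    have e : b + 1 - (a + 1) = b - a := by ring
    rwa [e] at this

lemma isClosed_X : IsClosed X := by
  have : X = ⋂ (a : ℤ) (b : ℤ), {x | a < b → x a = true → x b = true → D (b - a).toNat} := by
    ext x
    simp [X]
  rw [this]
  refine isClosed_iInter fun a => isClosed_iInter fun b => ?_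
  have hc : Continuous (fun x : ℤ → Bool => (x a, x b)) :=
    (continuous_apply a).prodMk (continuous_apply b)
  exact (isClosed_discrete {p : Bool × Bool | a < b → p.1 = true → p.2 = true →
    D (b - a).toNat}).preimage hc

lemma zero_mem : (fun _ => false : ℤ → Bool) ∈ X := by
  intro a b _ ha
  simp at ha

lemma hX : IsShiftSpace X where
  nonempty := ⟨_, zero_mem⟩
  closed := isClosed_X
  invariant := shift_mem

lemma iterate_shift {A : Type} (n : ℕ) (x : ℤ → A) (i : ℤ) : (shift^[n] x) i = x (i + n) := by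
  induction n generalizing x i with
  | zero => simp
  | succ n ih =>
    rw [Function.iterate_succ_apply, ih]
    unfold shift
    push_cast
    congr 1
    ring

/-- Open sets contain cylinders. -/
lemma exists_window {U : Set (ℤ → Bool)} (hU : IsOpen U) {x : ℤ → Bool} (hx : x ∈ U) :
    ∃ K : ℕ, ∀ z : ℤ → Bool, (∀ i : ℤ, |i| ≤ K → z i = x i) → z ∈ U := by
  rw [isOpen_pi_iff] at hU
  obtain ⟨I, u, hu, hsub⟩ := hU x hx
  refine ⟨I.sup Int.natAbs, fun z hz => hsub ?_⟩
  intro i hi
  have h1 : i.natAbs ≤ I.sup Int.natAbs := Finset.le_sup (f := Int.natAbs) hi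
  rw [hz i (by rw [Int.abs_eq_natAbs]; exact_mod_cast h1)]
  exact (hu i hi).2

lemma transitive_X : Transitive X := by
  classical
  rintro U V hU hV ⟨x, hxU, hxX⟩ ⟨y, hyV, hyX⟩
  obtain ⟨K₁, hK₁⟩ := exists_window hU hxU
  obtain ⟨K₂, hK₂⟩ := exists_window hV hyV
  set K := max K₁ K₂ with hK
  set n : ℕ := 2 * 4 ^ (2 * K) with hn
  have hpow : 2 * K ≤ 4 ^ (2 * K) := (Nat.lt_pow_self (by norm_num)).le
  have hpos : 0 < 4 ^ (2 * K) := by positivity
  have hpow' : 4 ^ (2 * K + 1) = 4 * 4 ^ (2 * K) := by ring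
  let z : ℤ → Bool := fun i => if |i| ≤ K then x i else if |i - n| ≤ K then y (i - n) else false
  have hz1 : ∀ i : ℤ, |i| ≤ K → z i = x i := fun i hi => if_pos hi
  have hz2 : ∀ i : ℤ, |i - n| ≤ K → z i = y (i - n) := by
    intro i hi
    have h : ¬ |i| ≤ K := by
      intro h
      rw [abs_le] at h hi
      omega
    simp only [z, if_neg h, if_pos hi]
  have hz0 : ∀ i : ℤ, z i = true → (|i| ≤ K ∨ |i - n| ≤ K) := by
    intro i hi
    by_contra hcon
    push Not at hcon
    simp only [z, if_neg (not_le.mpr hcon.1), if_neg (not_le.mpr hcon.2)] at hi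
    simp at hi
  have hzX : z ∈ X := by
    intro a b hab ha hb
    rcases hz0 a ha with h1 | h1 <;> rcases hz0 b hb with h2 | h2
    · rw [hz1 a h1] at ha
      rw [hz1 b h2] at hb
      exact hxX a b hab ha hb
    · rw [abs_le] at h1 h2
      exact D_of_mem (j := K) (by omega) (by omega)
    · rw [abs_le] at h1 h2
      omega
    · rw [hz2 a h1] at ha
      rw [hz2 b h2] at hb
      have := hyX _ _ (by omega) ha hb
      have e : b - n - (a - n) = b - a := by ring
      rwa [e] at this
  refine ⟨n, by omega, z, ⟨hK₁ z fun i hi => hz1 i ?_, hzX⟩, hK₂ _ fun i hi => ?_⟩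
  · refine hi.trans ?_
    exact_mod_cast le_max_left _ _
  · rw [iterate_shift, hz2 _ (by
      rw [add_sub_cancel_right]
      refine hi.trans ?_
      exact_mod_cast le_max_right _ _), add_sub_cancel_right]

lemma periodic_X : periodicPts X ⊆ {fun _ => false} := by
  rintro x ⟨hx, n, hn, hper⟩
  rw [mem_singleton_iff]
  funext a
  by_contra hne
  have ha : x a = true := by simpa using hne
  have hstep : ∀ i : ℤ, x (i + n) = x i := by
    intro i
    have h := congrFun hper i
    rwa [iterate_shift] at h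
  have h1 : x (a + n) = true := by rw [hstep]; exact ha
  have h4 : x (a + n + n + n + n) = true := by
    rw [hstep, hstep, hstep]; exact h1
  have hD1 := hx a (a + n) (by omega) ha h1
  have hD4 := hx a (a + n + n + n + n) (by omega) ha h4
  have e1 : (a + n - a).toNat = n := by omega
  have e4 : (a + n + n + n + n - a).toNat = n * 4 := by omega
  rw [e1] at hD1
  rw [e4] at hD4
  unfold D at hD1 hD4
  rw [Nat.log_mul_base (by norm_num) (by omega), Nat.even_add_one] at hD4
  exact hD4 hD1

/-- The tail weight. -/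
noncomputable def w (x : ℤ → Bool) : ℝ := ∑' n : ℕ, (1 / 2 : ℝ) ^ (n + 1) * (if x (n + 1) = true then 1 else 0)

lemma summable_half : Summable (fun n : ℕ => (1 / 2 : ℝ) ^ (n + 1)) := by
  have := summable_geometric_two
  exact (summable_nat_add_iff 1).mpr this

lemma w_term_le (x : ℤ → Bool) (n : ℕ) :
    (1 / 2 : ℝ) ^ (n + 1) * (if x (n + 1) = true then 1 else 0) ≤ (1 / 2 : ℝ) ^ (n + 1) := by
  split_ifs
  · simp
  · simp only [mul_zero]; positivity

lemma w_term_nonneg (x : ℤ → Bool) (n : ℕ) :
    0 ≤ (1 / 2 : ℝ) ^ (n + 1) * (if x (n + 1) = true then 1 else 0) := by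
  split_ifs <;> positivity

lemma w_nonneg (x : ℤ → Bool) : 0 ≤ w x := tsum_nonneg (w_term_nonneg x)

lemma w_le (x : ℤ → Bool) : w x ≤ 1 := by
  have h1 : Summable (fun n : ℕ => (1 / 2 : ℝ) ^ (n + 1) * (if x (n + 1) = true then 1 else 0)) :=
    Summable.of_nonneg_of_le (w_term_nonneg x) (w_term_le x) summable_half
  have h2 : w x ≤ ∑' n : ℕ, (1 / 2 : ℝ) ^ (n + 1) := h1.tsum_le_tsum (w_term_le x) summable_half
  have h3 : ∑' n : ℕ, (1 / 2 : ℝ) ^ (n + 1) = 1 := by
    simp only [pow_succ]
    rw [tsum_mul_right, tsum_geometric_two]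
    norm_num
  linarith

lemma continuous_w : Continuous w := by
  refine continuous_tsum (fun n => ?_) summable_half (fun n x => ?_)
  · have h : Continuous (fun b : Bool => (1 / 2 : ℝ) ^ (n + 1) * (if b = true then 1 else 0)) :=
      continuous_of_discreteTopology
    exact h.comp (continuous_apply _)
  · rw [Real.norm_of_nonneg (w_term_nonneg x n)]
    exact w_term_le x n

/-- The roof function `r x = 1 + x₀ ∑ₙ 2⁻ⁿ xₙ`. -/
noncomputable def r (x : X) : ℝ := 1 + (if x.1 0 = true then w x.1 else 0)

lemma continuous_r : Continuous r := by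
  have h1 : Continuous (fun b : Bool => (if b = true then (1 : ℝ) else 0)) :=
    continuous_of_discreteTopology
  have h2 : r = fun x : X => 1 + (if x.1 0 = true then (1 : ℝ) else 0) * w x.1 := by
    funext x
    unfold r
    split_ifs <;> simp
  rw [h2]
  exact continuous_const.add ((h1.comp ((continuous_apply 0).comp continuous_subtype_val)).mul
    (continuous_w.comp continuous_subtype_val))

lemma r_ge (x : X) : 1 ≤ r x := by
  unfold r
  split_ifs
  · linarith [w_nonneg x.1]
  · linarith

lemma r_le (x : X) : r x ≤ 2 := by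
  unfold r
  split_ifs
  · linarith [w_le x.1]
  · linarith

/-! ### The roof function is not cohomologous to a locally constant function -/

/-- The sequence with one symbol `true`, at `j`. -/
def one (j : ℤ) : X := ⟨fun i => decide (i = j), by
  intro a b hab ha hb
  simp only [decide_eq_true_eq] at ha hb
  omega⟩

/-- The zero sequence. -/
def zro : X := ⟨fun _ => false, zero_mem⟩

/-- The sequence with two symbols `true`, at `j` and `j + M`. -/
def two (M : ℕ) (hM : D M) (j : ℤ) : X := ⟨fun i => decide (i = j ∨ i = j + M), by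
  intro a b hab ha hb
  simp only [decide_eq_true_eq] at ha hb
  have : (b - a).toNat = M := by omega
  rw [this]
  exact hM⟩

lemma sX_one (j : ℤ) : sX hX (one j) = one (j - 1) := by
  apply Subtype.ext
  funext i
  show decide (i + 1 = j) = decide (i = j - 1)
  congr 1
  rw [eq_iff_iff]
  omega

lemma sX_zro : sX hX zro = zro := rfl

lemma sX_two (M : ℕ) (hM : D M) (j : ℤ) : sX hX (two M hM j) = two M hM (j - 1) := by
  apply Subtype.ext
  funext i
  show decide (i + 1 = j ∨ i + 1 = j + M) = decide (i = j - 1 ∨ i = j - 1 + M)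
  congr 1
  rw [eq_iff_iff]
  omega

lemma r_zro : r zro = 1 := by simp [r, zro]

lemma r_one (j : ℤ) : r (one j) = 1 := by
  unfold r
  have : (one j).1 0 = decide ((0 : ℤ) = j) := rfl
  rw [this]
  by_cases hj : (0 : ℤ) = j
  · subst hj
    have hw : w (one 0).1 = 0 := by
      unfold w
      rw [← tsum_zero (α := ℝ) (β := ℕ)]
      congr 1
      funext n
      have : (one 0).1 ((n : ℤ) + 1) = decide ((n : ℤ) + 1 = 0) := rfl
      rw [this]
      have h2 : ¬ ((n : ℤ) + 1 = 0) := by omega
      simp [h2]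
    rw [hw]
    simp
  · simp [hj]

lemma r_two (M : ℕ) (hM : D M) (hM0 : 0 < M) (j : ℤ) :
    r (two M hM j) = 1 + (if j = 0 then (1 / 2 : ℝ) ^ M else 0) := by
  unfold r
  have h0 : (two M hM j).1 0 = decide ((0 : ℤ) = j ∨ (0 : ℤ) = j + M) := rfl
  have hn : ∀ n : ℕ, (two M hM j).1 ((n : ℤ) + 1) =
      decide ((n : ℤ) + 1 = j ∨ (n : ℤ) + 1 = j + M) := fun n => rfl
  congr 1
  by_cases hj : j = 0
  · subst hj
    have hw : w (two M hM 0).1 = (1 / 2 : ℝ) ^ M := by
      unfold w
      rw [tsum_eq_single (M - 1)]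
      · rw [hn]
        have h1 : ((M - 1 : ℕ) : ℤ) + 1 = 0 + M := by omega
        have h2 : M - 1 + 1 = M := by omega
        simp [h1, h2]
      · intro n hne
        rw [hn]
        have h3 : ¬ ((n : ℤ) + 1 = 0 ∨ (n : ℤ) + 1 = 0 + M) := by omega
        simp only [h3, decide_false]
        simp
    rw [hw, h0]
    simp
  · rw [if_neg hj, h0]
    by_cases hjM : (0 : ℤ) = j + M
    · have hw : w (two M hM j).1 = 0 := by
        unfold w
        rw [← tsum_zero (α := ℝ) (β := ℕ)]
        congr 1
        funext n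
        rw [hn]
        have h3 : ¬ ((n : ℤ) + 1 = j ∨ (n : ℤ) + 1 = j + M) := by omega
        simp only [h3, decide_false]
        simp
      rw [hw]
      simp
    · have h3 : ¬ ((0 : ℤ) = j ∨ (0 : ℤ) = j + M) := by omega
      simp [h3]

lemma tendsto_one (l : Filter ℤ) (hl : ∀ i : ℤ, ∀ᶠ j in l, j ≠ i) :
    Tendsto one l (𝓝 zro) := by
  rw [tendsto_subtype_rng, tendsto_pi_nhds]
  intro i
  refine tendsto_const_nhds.congr' ?_
  filter_upwards [hl i] with j hj
  show false = decide (i = j)
  simp [Ne.symm hj]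

lemma tendsto_two (M : ℕ) (hM : D M) (l : Filter ℤ) (hl : ∀ i : ℤ, ∀ᶠ j in l, j ≠ i) :
    Tendsto (two M hM) l (𝓝 zro) := by
  rw [tendsto_subtype_rng, tendsto_pi_nhds]
  intro i
  refine tendsto_const_nhds.congr' ?_
  filter_upwards [hl i, hl (i - M)] with j hj hj'
  show false = decide (i = j ∨ i = j + M)
  have : ¬ (i = j ∨ i = j + M) := by
    rintro (h | h)
    · exact hj h.symm
    · exact hj' (by omega)
  simp [this]

lemma not_cohomologous (g : X → ℝ) (hg : LocConst g) : ¬ Cohomologous hX r g := by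
  rintro ⟨h, hc, hcob⟩
  obtain ⟨N, hN⟩ := hg
  have hg0 : g zro = 1 := by
    have := hcob zro
    rw [sX_zro, r_zro] at this
    linarith
  -- a large admissible distance
  set M : ℕ := 4 ^ (2 * N + 2) with hMdef
  have hMN : 2 * N + 2 < M := Nat.lt_pow_self (by norm_num)
  have hM : D M := by
    refine D_of_mem (j := N + 1) ?_ ?_
    · rw [hMdef]; exact le_of_eq (by ring)
    · rw [hMdef]
      exact Nat.pow_lt_pow_right (by norm_num) (by omega)
  have hone : ∀ j : ℤ, (N : ℤ) < |j| → g (one j) = 1 := by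
    intro j hj
    rw [← hg0]
    refine hN _ _ fun i hi => ?_
    show decide (i = j) = false
    have : i ≠ j := by rintro rfl; omega
    simp [this]
  have hgtwo : ∀ j : ℤ, g (two M hM j) - 1 = (g (one j) - 1) + (g (one (j + M)) - 1) := by
    intro j
    by_cases hj : |j| ≤ N
    · have h1 : (N : ℤ) < |j + M| := by
        rw [abs_le] at hj
        rw [lt_abs]
        omega
      rw [hone _ h1]
      have h2 : g (two M hM j) = g (one j) := by
        refine hN _ _ fun i hi => ?_
        show decide (i = j ∨ i = j + M) = decide (i = j)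
        have : i ≠ j + M := by rintro rfl; omega
        simp [this]
      rw [h2]; ring
    · rw [hone j (not_le.mp hj)]
      have h2 : g (two M hM j) = g (one (j + M)) := by
        refine hN _ _ fun i hi => ?_
        show decide (i = j ∨ i = j + M) = decide (i = j + M)
        have : i ≠ j := by rintro rfl; exact hj hi
        simp [this]
      rw [h2]; ring
  -- the auxiliary function
  let W : ℤ → ℝ := fun j => h (two M hM j) - h (one j) - h (one (j + M))
  have hW : ∀ j : ℤ, W (j - 1) - W j = if j = 0 then (1 / 2 : ℝ) ^ M else 0 := by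
    intro j
    have h1 := hcob (two M hM j)
    have h2 := hcob (one j)
    have h3 := hcob (one (j + M))
    rw [sX_two, r_two M hM (by omega)] at h1
    rw [sX_one, r_one] at h2 h3
    have e : j + (M : ℤ) - 1 = j - 1 + M := by ring
    rw [e] at h3
    have h4 := hgtwo j
    show (h (two M hM (j - 1)) - h (one (j - 1)) - h (one (j - 1 + M))) -
      (h (two M hM j) - h (one j) - h (one (j + M))) = _
    linarith
  have hpos : ∀ n : ℕ, W n = W 0 := by
    intro n
    induction n with
    | zero => rfl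
    | succ n ih =>
      have := hW ((n + 1 : ℕ) : ℤ)
      rw [if_neg (by omega)] at this
      have e : ((n + 1 : ℕ) : ℤ) - 1 = n := by push_cast; ring
      rw [e] at this
      linarith
  have hneg : ∀ n : ℕ, W (-1 - n) = W (-1) := by
    intro n
    induction n with
    | zero => simp
    | succ n ih =>
      have := hW (-1 - n)
      rw [if_neg (by omega)] at this
      have e : (-1 - (n : ℤ)) - 1 = -1 - ((n + 1 : ℕ) : ℤ) := by push_cast; ring
      rw [e] at this
      linarith
  have h01 : W (-1) - W 0 = (1 / 2 : ℝ) ^ M := by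
    have := hW 0
    simpa using this
  have hlim : ∀ u : ℕ → ℤ, (∀ i : ℤ, ∀ᶠ n in atTop, u n ≠ i) →
      Tendsto (fun n => W (u n)) atTop (𝓝 (h zro - h zro - h zro)) := by
    intro u hu
    have hu' : ∀ i : ℤ, ∀ᶠ j in map u atTop, j ≠ i := fun i => by
      rw [eventually_map]; exact hu i
    have t1 : Tendsto (fun n => h (two M hM (u n))) atTop (𝓝 (h zro)) :=
      (hc.tendsto zro).comp ((tendsto_two M hM _ hu').comp tendsto_map)
    have t2 : Tendsto (fun n => h (one (u n))) atTop (𝓝 (h zro)) :=
      (hc.tendsto zro).comp ((tendsto_one _ hu').comp tendsto_map)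
    have t3 : Tendsto (fun n => h (one (u n + M))) atTop (𝓝 (h zro)) := by
      have hu'' : ∀ i : ℤ, ∀ᶠ j in map (fun n => u n + M) atTop, j ≠ i := fun i => by
        rw [eventually_map]
        filter_upwards [hu (i - M)] with n hn
        intro hcon
        exact hn (by omega)
      exact (hc.tendsto zro).comp ((tendsto_one _ hu'').comp tendsto_map)
    exact (t1.sub t2).sub t3
  have l1 : Tendsto (fun n : ℕ => W (n : ℤ)) atTop (𝓝 (h zro - h zro - h zro)) := by
    refine hlim (fun n => (n : ℤ)) fun i => ?_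
    filter_upwards [eventually_gt_atTop i.natAbs] with n hn
    omega
  have l2 : Tendsto (fun n : ℕ => W (-1 - n)) atTop (𝓝 (h zro - h zro - h zro)) := by
    refine hlim (fun n => -1 - (n : ℤ)) fun i => ?_
    filter_upwards [eventually_gt_atTop i.natAbs] with n hn
    omega
  have c1 : W 0 = h zro - h zro - h zro :=
    tendsto_nhds_unique (tendsto_const_nhds.congr fun n => (hpos n).symm) l1
  have c2 : W (-1) = h zro - h zro - h zro :=
    tendsto_nhds_unique (tendsto_const_nhds.congr fun n => (hneg n).symm) l2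
  rw [c1, c2, sub_self] at h01
  have : (0 : ℝ) < (1 / 2) ^ M := by positivity
  linarith

/-! ### The suspension flow is not mixing -/

/-- Shift by `i`. -/
def zs (x : X) (i : ℤ) : X := ⟨fun j => x.1 (j + i), by
  intro a b hab ha hb
  have := x.2 (a + i) (b + i) (by omega) ha hb
  have e : b + i - (a + i) = b - a := by ring
  rwa [e] at this⟩

lemma continuous_zs (i : ℤ) : Continuous (fun x : X => zs x i) := by
  refine Continuous.subtype_mk ?_ _
  exact continuous_pi fun j => (continuous_apply (j + i)).comp continuous_subtype_val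

/-- Birkhoff sums of the roof function, for all integers. -/
noncomputable def S (x : X) (n : ℤ) : ℝ :=
  ∑ i ∈ Finset.Ico 0 n, r (zs x i) - ∑ i ∈ Finset.Ico n 0, r (zs x i)

lemma S_zero (x : X) : S x 0 = 0 := by simp [S]

lemma S_succ (x : X) (n : ℤ) : S x (n + 1) = S x n + r (zs x n) := by
  unfold S
  rcases lt_or_ge n 0 with hn | hn
  · have h1 : Finset.Ico 0 (n + 1) = ∅ := Finset.Ico_eq_empty (by omega)
    have h2 : Finset.Ico 0 n = ∅ := Finset.Ico_eq_empty (by omega)
    have h3 : Finset.Ico n 0 = insert n (Finset.Ico (n + 1) 0) := by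
      ext i
      simp only [Finset.mem_Ico, Finset.mem_insert]
      omega
    rw [h1, h2, h3, Finset.sum_insert (by simp)]
    simp
  · have h1 : Finset.Ico (n + 1) 0 = ∅ := Finset.Ico_eq_empty (by omega)
    have h2 : Finset.Ico n 0 = ∅ := Finset.Ico_eq_empty (by omega)
    have h3 : Finset.Ico 0 (n + 1) = insert n (Finset.Ico 0 n) := by
      ext i
      simp only [Finset.mem_Ico, Finset.mem_insert]
      omega
    rw [h1, h2, h3, Finset.sum_insert (by simp)]
    simp only [Finset.sum_empty]
    ring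

lemma zs_shift (x : X) (n : ℤ) : zs (sX hX x) n = zs x (n + 1) := by
  apply Subtype.ext
  funext i
  show x.1 (i + n + 1) = x.1 (i + (n + 1))
  rw [add_assoc]

lemma zs_zero (x : X) : zs x 0 = x := by
  apply Subtype.ext
  funext i
  show x.1 (i + 0) = x.1 i
  rw [add_zero]

lemma S_shift (x : X) (n : ℤ) : S (sX hX x) n = S x (n + 1) - r x := by
  have h0 : S (sX hX x) 0 = S x (0 + 1) - r x := by
    rw [S_zero, S_succ, S_zero, zs_zero]; ring
  induction n using Int.induction_on with
  | zero => exact h0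
  | succ n ih =>
    rw [S_succ, ih, zs_shift, S_succ x ((n : ℤ) + 1)]
    ring
  | pred n ih =>
    have h1 := S_succ (sX hX x) (-(n : ℤ) - 1)
    have h2 := S_succ x (-(n : ℤ) - 1 + 1)
    have e1 : -(n : ℤ) - 1 + 1 = -n := by ring
    rw [e1] at h1 h2
    rw [zs_shift, e1] at h1
    rw [e1]
    have h3 := S_succ x (-(n : ℤ))
    linarith

lemma S_mono (x : X) (n : ℤ) (k : ℕ) : (k : ℝ) ≤ S x (n + k) - S x n ∧
    S x (n + k) - S x n ≤ 2 * k := by
  induction k with
  | zero => simp
  | succ k ih =>
    have e : n + ((k + 1 : ℕ) : ℤ) = n + k + 1 := by push_cast; ring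
    rw [e, S_succ]
    have h1 := r_ge (zs x (n + k))
    have h2 := r_le (zs x (n + k))
    push_cast
    constructor <;> linarith [ih.1, ih.2]

/-- The saturated open set of points lying over the symbol `true` at height in `(0,1)`. -/
def W : Set (X × ℝ) :=
  {p | ∃ n : ℤ, p.1.1 n = true ∧ 0 < p.2 - S p.1 n ∧ p.2 - S p.1 n < 1}

lemma isOpen_W : IsOpen W := by
  have : W = ⋃ n : ℤ, {p : X × ℝ | p.1.1 n = true ∧ 0 < p.2 - S p.1 n ∧ p.2 - S p.1 n < 1} := by
    ext p
    simp [W]
  rw [this]
  refine isOpen_iUnion fun n => ?_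
  have hS : Continuous (fun p : X × ℝ => p.2 - S p.1 n) := by
    refine continuous_snd.sub ?_
    unfold S
    refine Continuous.sub ?_ ?_
    · exact continuous_finsetSum _ fun i _ =>
        (continuous_r.comp (continuous_zs i)).comp continuous_fst
    · exact continuous_finsetSum _ fun i _ =>
        (continuous_r.comp (continuous_zs i)).comp continuous_fst
  have h1 : IsOpen {p : X × ℝ | p.1.1 n = true} := by
    have hc : Continuous (fun p : X × ℝ => p.1.1 n) :=
      (continuous_apply n).comp (continuous_subtype_val.comp continuous_fst)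
    exact hc.isOpen_preimage {true} (isOpen_discrete _)
  exact h1.inter ((isOpen_lt continuous_const hS).inter (isOpen_lt hS continuous_const))

lemma W_sat (p : X × ℝ) : (sX hX p.1, p.2 - r p.1) ∈ W ↔ p ∈ W := by
  constructor
  · rintro ⟨n, h1, h2, h3⟩
    simp only [S_shift] at h2 h3
    refine ⟨n + 1, h1, ?_, ?_⟩ <;> linarith
  · rintro ⟨n, h1, h2, h3⟩
    refine ⟨n - 1, ?_, ?_, ?_⟩
    · show p.1.1 (n - 1 + 1) = true
      rw [sub_add_cancel]; exact h1
    · simp only [S_shift, sub_add_cancel]; linarith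
    · simp only [S_shift, sub_add_cancel]; linarith

/-- The corresponding open set of the suspension space. -/
def U : Set (Susp hX r) :=
  {q | Quot.lift (fun p : X × ℝ => p ∈ W) (by
    rintro p q rfl
    exact propext (W_sat p).symm) q}

lemma isOpen_U : IsOpen U := by
  have : IsOpen ((Quot.mk _ : X × ℝ → Susp hX r) ⁻¹' U) := isOpen_W
  exact this

lemma not_mixing : ¬ FlowMixing hX r := by
  intro hmix
  have hne : U.Nonempty := by
    refine ⟨Quot.mk _ (one 0, 1 / 2), ?_⟩
    show ((one 0, 1 / 2) : X × ℝ) ∈ W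
    refine ⟨0, by simp [one], ?_, ?_⟩
    · simp only [S_zero]; norm_num
    · simp only [S_zero]; norm_num
  obtain ⟨T, hT⟩ := hmix U U isOpen_U isOpen_U hne hne
  obtain ⟨j, hj⟩ := exists_nat_gt T
  have hpow : j + 1 ≤ 4 ^ (2 * j + 2) - 1 := by
    have : 2 * j + 2 < 4 ^ (2 * j + 2) := Nat.lt_pow_self (by norm_num)
    omega
  set t : ℕ := 4 ^ (2 * j + 2) - 1 with ht
  have hTt : T ≤ (t : ℝ) := by
    have : ((j + 1 : ℕ) : ℝ) ≤ (t : ℝ) := by exact_mod_cast hpow
    push_cast at this
    linarith
  obtain ⟨q, ⟨q', hq', hqq'⟩, hq⟩ := hT t hTt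
  revert hq' hqq'
  refine Quot.inductionOn q' ?_
  rintro ⟨x, s⟩ hxs hq2
  have h1 : ((x, s) : X × ℝ) ∈ W := hxs
  have h2 : ((x, s + t) : X × ℝ) ∈ W := by
    rw [← hq2] at hq
    exact hq
  obtain ⟨n, hn1, hn2, hn3⟩ := h1
  obtain ⟨m, hm1, hm2, hm3⟩ := h2
  simp only at hn1 hn2 hn3 hm1 hm2 hm3
  have ht1 : (1 : ℝ) ≤ t := by
    have : 1 ≤ t := by omega
    exact_mod_cast this
  have hnm : n < m := by
    by_contra hcon
    push Not at hcon
    obtain ⟨k, hk⟩ : ∃ k : ℕ, n = m + k := ⟨(n - m).toNat, by omega⟩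
    have := (S_mono x m k).1
    rw [← hk] at this
    have hk0 : (0 : ℝ) ≤ k := Nat.cast_nonneg k
    linarith
  obtain ⟨k, hk⟩ : ∃ k : ℕ, m = n + k := ⟨(m - n).toNat, by omega⟩
  have hS1 := (S_mono x n k).1
  have hS2 := (S_mono x n k).2
  rw [← hk] at hS1 hS2
  have hk1 : (k : ℝ) < t + 1 := by linarith
  have hk2 : (t : ℝ) < 2 * k + 1 := by linarith
  have hk1' : k < t + 1 := by exact_mod_cast hk1
  have hk2' : t < 2 * k + 1 := by exact_mod_cast hk2
  have hD := x.2 n m hnm hn1 hm1
  have e : (m - n).toNat = k := by omega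
  rw [e] at hD
  have hp1 : 4 ^ (2 * j + 2) = 4 * 4 ^ (2 * j + 1) := by ring
  have hp2 : 0 < 4 ^ (2 * j + 1) := by positivity
  exact not_D_of_mem (j := j) (by omega) (by omega) hD

/-- **A transitive shift with one periodic point and a non-mixing suspension flow whose roof
function is not cohomologous to a locally constant function.** -/
theorem result :
    ∃ (X : Set (ℤ → Bool)) (hX : IsShiftSpace X), Transitive X ∧
      periodicPts X = {fun _ => false} ∧
      ∃ r : X → ℝ, Continuous r ∧ (∀ x, 0 < r x) ∧ ¬ FlowMixing hX r ∧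
        (∀ c : ℝ, ¬ Cohomologous hX r (fun _ => c)) ∧
        ∀ g : X → ℝ, LocConst g → ¬ Cohomologous hX r g := by
  refine ⟨X, hX, transitive_X, periodic_X.antisymm ?_, r, continuous_r,
    fun x => lt_of_lt_of_le one_pos (r_ge x), not_mixing, fun c => ?_, not_cohomologous⟩
  · rintro _ rfl
    exact ⟨zero_mem, 1, le_rfl, rfl⟩
  · exact not_cohomologous _ ⟨0, fun _ _ _ => rfl⟩

end Pool.Agent.Results.MP_49f1ce_an.SpacingShift
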